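import Pool.Agent.Q258.LegDet2

set_option autoImplicit false

/-!
# The set `E(m)` is finite for every `m`

The definitions of the determinant `D p m` and of the set `E m` are in
`Pool/Agent/Q258/LegDetDefs.lean`.
-/

namespace Pool.Agent.Results.MP_63ede0_nt.ExceptionalSetsFinite

open Pool.Agent.Q258.LegDet

/-- For every `m` (in particular for every positive odd `m`) only finitely many primes
`p ≡ 1 (mod 4)` divide the determinant `D p m`. -/
theorem result : ∀ m : ℕ, (E m).Finite := E_finite

end Pool.Agent.Results.MP_63ede0_nt.ExceptionalSetsFinite
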