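import Pool.Agent.Q258.LegDet3

set_option autoImplicit false

/-!
# The sets `E(5)`, `E(7)`, `E(9)`, `E(11)`

The definitions of the determinant `D p m` and of the set `E m` are in
`Pool/Agent/Q258/LegDetDefs.lean`.
-/

namespace Pool.Agent.Results.MP_63ede0_nt.ExplicitSets

open Pool.Agent.Q258.LegDet

/-- The exact values of `E m` for `m = 5, 7, 9, 11`; the conjectured value is right for `m = 5`
only, since `2477`, `1201` and `1597` are missing from the conjectured lists for `m = 7, 9, 11`. -/
theorem result : E 5 = {29} ∧ E 7 = {13, 53, 2477} ∧ E 9 = {13, 17, 29, 1201} ∧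
    E 11 = {17, 29, 1597} :=
  ⟨E5, E7, E9, E11⟩

end Pool.Agent.Results.MP_63ede0_nt.ExplicitSets
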